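import Mathlib
import Pool.Agent.Y215.SK.FinC
import Pool.Agent.H533R3.SL.Asm
import Pool.Agent.W180.TP.Nor

set_option autoImplicit false

/-!
# Lang's strong conjecture for the points that are sums of few terms close to a group of finite rank

Let `X` be an integral closed subvariety of projective `n`-space over a number field `k`, given by
the forms `P_i`.

(1) Suppose that `X` is not uniruled (for instance of general type, of positive dimension). For every
`r` there is ONE proper closed subset `Z = X ∩ {G = 0}` of `X`, defined over `k`, and `ε > 0` such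
that for ALL finitely generated groups `Γ` of nonzero algebraic numbers (for instance the `S`-units
of any number field, for any finite set `S` of places), with division group `Γ'`:

* the height of every algebraic point of `X ∖ Z` of the form `x = ∑_{j=1}^r u_j v_j`, with `u_j` in
  `Γ'` and ANY algebraic vectors `v_j`, is at most `C(Γ) (1 + h(v))`;
* there are only finitely many such points of degree at most `D` over `ℚ` with `h(v) ≤ B`, in
  particular over each finite extension `K` of `k`;
* for all `v_1, …, v_r` there are only finitely many points of `X ∖ Z`, over the field of all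
  algebraic numbers, of the form `∑ u_j s_j v_j` with `u_j` in `Γ'` and algebraic numbers `s_j` such
  that the height of `(s_1 : … : s_r)` is less than `ε`, at most `A(Γ) (1 + h(v)) ^ e`.

The exceptional set `Z` depends only on `X` and the number `r` of terms: not on the number field,
not on the group and not on the vectors.

(2) If `X` is uniruled, this fails: for some `r` and for every proper closed subset `Z` there are a
number field `K ⊇ k` and vectors `v_1, …, v_r` such that infinitely many `K`-rational points of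
`X ∖ Z` are of the form `∑ u_j v_j` with `u_j` in the division group of the powers of `2`.
-/

namespace Pool.Agent.Results.MP_7ede32_ag.OneSetFiniteRank

open MvPolynomial NumberField Height Module
open Pool.Agent.Helper259.AbsHt Pool.Agent.H533R3.SL Pool.Agent.Y215.SK

/-- the algebraic points of degree at most `D` on `P = 0` and off `G = 0` with homogeneous
coordinates `∑ u_j V_j`, for elements `u_j` with a power in `Γ` and vectors `V_j` of height at most
`B` -/
def degPts {k : Type} [Field k] [Algebra k Qbar] {n N : ℕ} (r : ℕ)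
    (P : Fin N → MvPolynomial (Fin (n + 1)) k) (G : MvPolynomial (Fin (n + 1)) k)
    (Γ : Subgroup Qbarˣ) (D : ℕ) (B : ℝ) : Set (Projectivization Qbar (Fin (n + 1) → Qbar)) :=
  {p | ∃ (u : Fin r → Qbarˣ) (V : Fin r → Fin (n + 1) → Qbar), (∀ j, u j ∈ DivHull Γ) ∧
    hV V ≤ B ∧ OnOff P G (psum Finset.univ u V) ∧
    (∃ h : psum Finset.univ u V ≠ 0, p = Projectivization.mk Qbar (psum Finset.univ u V) h) ∧
    ∃ (L : Type) (_ : Field L) (_ : NumberField L) (σ : L →+* Qbar) (y : Fin (n + 1) → L)
      (c : Qbar), finrank ℚ L ≤ D ∧ psum Finset.univ u V = fun a => c * σ (y a)}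

/-- the height of the points -/
theorem height_le {k : Type} [Field k] [Algebra k Qbar] {n N r : ℕ}
    (P : Fin N → MvPolynomial (Fin (n + 1)) k) (G : MvPolynomial (Fin (n + 1)) k)
    (Γ : Subgroup Qbarˣ) {C : ℝ}
    (hC : ∀ (u : Fin r → Qbarˣ) (V : Fin r → Fin (n + 1) → Qbar),
      (∀ j, u j ∈ DivHull Γ) → OnOff P G (psum Finset.univ u V) →
      ∃ J : Finset (Fin r), Good J u V ∧
        absLogHeight (fun j : J => (u j : Qbar)) ≤ C * (1 + hV V))
    (u : Fin r → Qbarˣ) (V : Fin r → Fin (n + 1) → Qbar) (hu : ∀ j, u j ∈ DivHull Γ)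
    (hon : OnOff P G (psum Finset.univ u V)) :
    absLogHeight (psum Finset.univ u V) ≤ (r + 1 + C) * (1 + hV V) := by
  obtain ⟨J, hJ, hh⟩ := hC u V hu hon
  obtain ⟨c, hc, hc2⟩ := good_prop J u V hJ hon.1
  rw [← absLogHeight_smul _ hc, ← hc2]
  have hV0 : 0 ≤ hV V := absLogHeight_nonneg _
  have h1 := psum_height J u V
  have hr : (0 : ℝ) ≤ r := Nat.cast_nonneg r
  nlinarith [mul_nonneg hr hV0]

/-- finitely many points of bounded height and degree -/
theorem degPts_finite {k : Type} [Field k] [Algebra k Qbar] {n N r : ℕ}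
    (P : Fin N → MvPolynomial (Fin (n + 1)) k) (G : MvPolynomial (Fin (n + 1)) k)
    (Γ : Subgroup Qbarˣ) {C : ℝ}
    (hC : ∀ (u : Fin r → Qbarˣ) (V : Fin r → Fin (n + 1) → Qbar),
      (∀ j, u j ∈ DivHull Γ) → OnOff P G (psum Finset.univ u V) →
        absLogHeight (psum Finset.univ u V) ≤ C * (1 + hV V)) (D : ℕ) (B : ℝ) :
    (degPts r P G Γ D B).Finite := by
  refine (Pool.Agent.W180.TP.northcott_pts Qbar (n + 1) D (|C| * (1 + |B|) * D)).subset ?_
  rintro p ⟨u, V, hu, hVB, hon, ⟨h0, rfl⟩, L, _, _, σ, y, c, hD, hy⟩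
  have hc : c ≠ 0 := by
    rintro rfl
    apply h0
    rw [hy]
    funext a
    simp
  obtain ⟨w, hw⟩ := Projectivization.exists_smul_eq_mk_rep Qbar (psum Finset.univ u V) h0
  refine ⟨L, inferInstance, inferInstance, σ, y, w * c, ?_, hD, ?_⟩
  · rw [← hw, hy]
    funext a
    simp only [Pi.smul_apply, smul_eq_mul, Units.smul_def]
    ring
  · have h1 := hC u V hu hon
    have h2 : absLogHeight (fun a => σ (y a)) = absLogHeight (psum Finset.univ u V) := by
      have h3 : psum Finset.univ u V = c • fun a => σ (y a) := by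
        rw [hy]
        rfl
      rw [h3, absLogHeight_smul _ hc]
    rw [← h2, absLogHeight_eq, div_le_iff₀ (by exact_mod_cast finrank_pos)] at h1
    have hV0 : 0 ≤ hV V := absLogHeight_nonneg _
    have h4 : C * (1 + hV V) ≤ |C| * (1 + |B|) :=
      mul_le_mul (le_abs_self C) (by linarith [hVB.trans (le_abs_self B)]) (by linarith)
        (abs_nonneg C)
    have h5 : (finrank ℚ L : ℝ) ≤ D := by exact_mod_cast hD
    have h6 : (0 : ℝ) ≤ finrank ℚ L := Nat.cast_nonneg _
    have h7 : 0 ≤ |C| * (1 + |B|) := by positivity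
    calc logHeight y ≤ C * (1 + hV V) * finrank ℚ L := h1
      _ ≤ |C| * (1 + |B|) * finrank ℚ L := mul_le_mul_of_nonneg_right h4 h6
      _ ≤ |C| * (1 + |B|) * D := mul_le_mul_of_nonneg_left h5 h7

/-- **Lang's strong conjecture for the points that are sums of `r` terms close to a group of finite
rank**, and the converse. -/
theorem result (k : Type) [Field k] [NumberField k] (n N d : ℕ) (hd : 1 ≤ d)
    (P : Fin N → MvPolynomial (Fin (n + 1)) k) (hP : ∀ i, ∃ e, e ≤ d ∧ (P i).IsHomogeneous e)
    (hprime : (Ideal.span (Set.range P)).IsPrime) :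
    (¬ Uniruled (Ideal.span (Set.range P)) → ∀ r : ℕ,
      ∃ G : MvPolynomial (Fin (n + 1)) k, (∃ e, G.IsHomogeneous e) ∧
        G ∉ Ideal.span (Set.range P) ∧ ∃ ε : ℝ, 0 < ε ∧
        ∀ [Algebra k Qbar] (Γ : Subgroup Qbarˣ), Γ.FG →
          (∃ C : ℝ, ∀ (u : Fin r → Qbarˣ) (V : Fin r → Fin (n + 1) → Qbar),
            (∀ j, u j ∈ DivHull Γ) → OnOff P G (psum Finset.univ u V) →
              absLogHeight (psum Finset.univ u V) ≤ C * (1 + hV V)) ∧
          (∀ (D : ℕ) (B : ℝ), (degPts r P G Γ D B).Finite) ∧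
          ∃ (A : ℝ) (e : ℕ), ∀ V : Fin r → Fin (n + 1) → Qbar, (mixPts P G Γ ε V).Finite ∧
            ((mixPts P G Γ ε V).ncard : ℝ) ≤ A * (1 + hV V) ^ e) ∧
    (Uniruled (Ideal.span (Set.range P)) →
      ∃ r : ℕ, ∀ G : MvPolynomial (Fin (n + 1)) k, (∃ e, G.IsHomogeneous e) →
        G ∉ Ideal.span (Set.range P) →
        ∃ (_ : Algebra k Qbar) (K : Type) (_ : Field K) (_ : NumberField K) (φ : K →+* Qbar)
          (V : Fin r → Fin (n + 1) → Qbar),
          (ratPts φ P G (Subgroup.closure {Units.mk0 (2 : Qbar) two_ne_zero}) {V}).Infinite) := by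
  refine ⟨fun hnu r => ?_, fun hu => converse2 k P hu⟩
  obtain ⟨G, hG1, hG2, hG3⟩ := exists_hyper (Set.range P) hprime hnu d hd
    (by rintro _ ⟨i, rfl⟩; exact hP i) r
  have hG4 : ∀ (L : Type) [Field L] [Algebra k L] (c : Fin r → Fin (n + 1) → L)
      (l : Fin r → ℕ), (∀ i, MvPolynomial.aeval (cur c l) (P i) = 0) →
        (∃ i i', cur c l i * Polynomial.C (∑ j, c j i') ≠
          cur c l i' * Polynomial.C (∑ j, c j i)) →
        MvPolynomial.aeval (fun i => ∑ j, c j i) G = 0 := by
    intro L _ _ c l h1 h2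
    exact hG3 L c l (by rintro _ ⟨i, rfl⟩; exact h1 i) h2
  refine ⟨G, hG1, hG2, Pool.Agent.Y215.SP.epsn ((d + 1) ^ r) / d / 2,
    half_pos (div_pos (Pool.Agent.Y215.SP.epsn_pos _ (Nat.one_le_pow _ _ (by omega)))
      (by exact_mod_cast hd)), ?_⟩
  intro _ Γ hΓ
  obtain ⟨C, hC⟩ := mult_bound P (fun i => (hP i).imp fun e h => h.2) G hG1 hG4 Γ hΓ
  have h1 := height_le P G Γ hC
  exact ⟨⟨_, h1⟩, degPts_finite P G Γ h1, mix_finite P d hd hP G hG1 hG4 Γ hΓ⟩

end Pool.Agent.Results.MP_7ede32_ag.OneSetFiniteRank
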