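import Mathlib
import Pool.Agent.J6H96.SS.Fin

set_option autoImplicit false

/-!
# Lang's strong conjecture for points whose coordinates are short sums

`X` is the projective variety over the number field `k` (a subfield of the complex numbers) given by
the forms `F` in `FF`. Definitions (`Pool/Agent/J6H96/SS/Defs.lean`):

* `shortPts FF G Γ r`: the points of `X` over `L` off `G = 0` with homogeneous coordinates each of
  which is a sum of `r` elements of the subgroup `Γ` of the multiplicative group of `L`, or zeros;
* `sparsePts FF G u D r B`: the complex points `[a_1 u_1 + ... + a_p u_p]` of `X` off `G = 0`, where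
  `u_1, ..., u_p` are fixed complex vectors and, for some algebraic number `b ≠ 0` of degree at most
  `D` which depends on the point, each `a_i` is a sum of `r` terms `b ^ m * x`, with `m` an integer
  and `x` a cyclotomic integer, of any conductor, whose conjugates have mean square at most `B`;
* `CurvesIn FF G`: all nonconstant rational curves on `X`, over all extension fields of `k`, lie in
  `G = 0`;
* `Uniruled` (`Pool/Agent/H533R3/SL/Cur.lean`): over some extension of `k` there is a nonconstant
  rational curve on `X` through the generic point of `X`. Varieties of general type are not
  uniruled.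

The theorem:

1. If `X` is integral and not uniruled, then for all `p`, `r`, `B` there is one proper closed subset
   `Z = X ∩ {G = 0}`, defined over `k`, such that off `Z`
   * the sparse points are finite in number, for all `D` and all `u_1, ..., u_p`: here all bases `b`
     of degree at most `D` and all cyclotomic fields are taken together, so that the points are not
     defined over one number field and do not come from one group of finite rank;
   * the short points are finite in number, for every extension field `L` of `k` (of any
     transcendence degree) and every finitely generated `Γ`.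
2. If `X` is uniruled this fails for every proper closed subset, already for number fields `L` and
   for the base `2`.
3. For any closed subset `G = 0` (and any `X`) the finiteness of all sets of sparse points, or of all
   sets of short points, off `G = 0` is equivalent to `CurvesIn FF G`.

Method. Vanishing sums `∑ c_i b ^ e_i ζ_i` with fixed complex `c_i`, roots of unity `ζ_i` and an
arbitrary `b` of degree at most `D`, not a root of unity, split along a finite set of ratios which
does not depend on `b` (`split_alg`): a gap principle in terms of the height of `b` (`gap_height`),
Northcott's theorem for the bases of small height, and Mann's lemma. For finitely generated groups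
the splitting is the theorem on unit equations over fields of characteristic zero (subspace theorem
and specialisation, start library). Given the splitting, almost all the points of a sequence lie on
rational curves `T ↦ ∑ z_j T ^ l_j w_j` in `X`, with the same terms, and the curves with a bounded
number of terms lie in one hypersurface if `X` is not uniruled.
-/

namespace Pool.Agent.Results.MP_7ede32_ag.OneSetForShortSums

open Pool.Agent.H533R3.SL (Uniruled)
open Pool.Agent.J6H96.SS

/-- One closed set for all points with coordinates that are short sums of elements of a finitely
generated group, over any field, or sparse in some base of bounded degree with cyclotomic integers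
as coefficients; the converses; and the characterisation of the closed sets with this property. -/
theorem result (k : Type) [Field k] [NumberField k] [Algebra k ℂ] (n : ℕ)
    (FF : Finset (MvPolynomial (Fin (n + 1)) k)) (hhom : ∀ F ∈ FF, ∃ e, F.IsHomogeneous e) :
    ((Ideal.span (FF : Set (MvPolynomial (Fin (n + 1)) k))).IsPrime →
      ¬ Uniruled (Ideal.span (FF : Set (MvPolynomial (Fin (n + 1)) k))) →
      ∀ (p r : ℕ) (B : ℝ), ∃ G : MvPolynomial (Fin (n + 1)) k, (∃ e, G.IsHomogeneous e) ∧
        G ∉ Ideal.span (FF : Set (MvPolynomial (Fin (n + 1)) k)) ∧
        (∀ (D : ℕ) (u : Fin p → Fin (n + 1) → ℂ), (sparsePts FF G u D r B).Finite) ∧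
        ∀ (L : Type) [Field L] [Algebra k L] (Γ : Subgroup Lˣ), Γ.FG →
          (shortPts FF G Γ r).Finite) ∧
    (Uniruled (Ideal.span (FF : Set (MvPolynomial (Fin (n + 1)) k))) →
      ∃ r : ℕ, ∀ G : MvPolynomial (Fin (n + 1)) k, (∃ e, G.IsHomogeneous e) →
        G ∉ Ideal.span (FF : Set (MvPolynomial (Fin (n + 1)) k)) →
        (∃ u : Fin r → Fin (n + 1) → ℂ, (sparsePts FF G u 1 1 1).Infinite) ∧
        ∃ (L : Type) (_ : Field L) (_ : NumberField L) (_ : Algebra k L) (Γ : Subgroup Lˣ),
          Γ.FG ∧ (shortPts FF G Γ r).Infinite) ∧
    ∀ G : MvPolynomial (Fin (n + 1)) k, List.TFAE [
      CurvesIn FF G,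
      ∀ (p r : ℕ) (B : ℝ) (D : ℕ) (u : Fin p → Fin (n + 1) → ℂ), (sparsePts FF G u D r B).Finite,
      ∀ (p : ℕ) (u : Fin p → Fin (n + 1) → ℂ), (sparsePts FF G u 1 1 1).Finite,
      ∀ (L : Type) [Field L] [Algebra k L] (Γ : Subgroup Lˣ), Γ.FG → ∀ r : ℕ,
        (shortPts FF G Γ r).Finite,
      ∀ (L : Type) [Field L] [NumberField L] [Algebra k L] (Γ : Subgroup Lˣ), Γ.FG → ∀ r : ℕ,
        (shortPts FF G Γ r).Finite] :=
  ⟨fun hprime hnu p r B => one_set FF hhom hprime hnu p r B, fun hu => uniruled_inf FF hu,
    fun G => tfae FF hhom G⟩

end Pool.Agent.Results.MP_7ede32_ag.OneSetForShortSums
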