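import Mathlib
import Pool.Agent.J6H32.SL.Uni

set_option autoImplicit false

/-!
# Lang's strong conjecture for iterated recurrences: one closed set and one bound for all fields

Let `X` be an integral closed subvariety of projective `n`-space over a number field `k`.

(1) Suppose that `X` is not uniruled (for instance of general type, of positive dimension). For all
`s`, `r`, `e` there are ONE proper closed subset `Z = X ∩ {G = 0}` of `X` and ONE number `B` such that
for ALL extension fields `L` of `k` which embed in `ℂ` (for instance all number fields and all finitely
generated extensions of `k`), ALL groups `H` (of any rank, finitely generated or not) and ALL families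
`x(h)`, `h ∈ H`, of vectors over `L` given by iterated recurrences of complexity `(s, r, e)` all of
whose nonzero members are points of `X`: at most `B` of the points are outside of `Z`.

Families of this kind are, for `s = 1`, the orbits `M ρ(h) v` of all representations `ρ` of groups by
matrices of size `r`, in particular all linear recurrence sequences of order at most `r` and all
families `∑_j u_j v_j` with the `u_j` in arbitrary multiplicative groups, for any field `L`; for larger
`s` these are the families built from them by polynomial cocycles, for instance sums over them. All
members of the family have to be zero or on `X`.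

(2) If `X` is uniruled, then already for the linear recurrence sequences of some order `r` over number
fields there are, for every proper closed subset `Z`, infinitely many points outside of `Z`.

So for these points the conjecture holds with the exceptional set depending only on `X` and the
complexity and with a bound for the number of all points outside of it which depends on nothing else.
-/

namespace Pool.Agent.Results.MP_7ede32_ag.OneSetOneBound

open MvPolynomial Pool.Agent.H533R3.SL Pool.Agent.Y377.ST

/-- **One closed set and one bound for all points given by iterated recurrences**, and the
converse. -/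
theorem result {k : Type} [Field k] [NumberField k] {n : ℕ}
    (FF : Finset (MvPolynomial (Fin (n + 1)) k)) (hhom : ∀ F ∈ FF, ∃ e, F.IsHomogeneous e)
    (hprime : (Ideal.span (FF : Set (MvPolynomial (Fin (n + 1)) k))).IsPrime) :
    (¬ Uniruled (Ideal.span (FF : Set (MvPolynomial (Fin (n + 1)) k))) → ∀ s r e : ℕ,
      ∃ G : MvPolynomial (Fin (n + 1)) k, (∃ d, G.IsHomogeneous d) ∧
        G ∉ Ideal.span (FF : Set (MvPolynomial (Fin (n + 1)) k)) ∧
        ∃ B : ℕ, ∀ (L : Type) [Field L] [Algebra k L] (_ : L →+* ℂ) (H : Type) [Group H]
          (x : H → Fin (n + 1) → L), IterVec s r e x →
          (∀ h, ∀ F ∈ FF, aeval (x h) F = 0) → (ptsOff G x).encard ≤ (B : ℕ∞)) ∧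
    (Uniruled (Ideal.span (FF : Set (MvPolynomial (Fin (n + 1)) k))) → ∃ r : ℕ,
      ∀ G : MvPolynomial (Fin (n + 1)) k, (∃ d, G.IsHomogeneous d) →
        G ∉ Ideal.span (FF : Set (MvPolynomial (Fin (n + 1)) k)) →
        ∃ (L : Type) (_ : Field L) (_ : NumberField L) (_ : Algebra k L)
          (x : Multiplicative ℤ → Fin (n + 1) → L), IterVec 1 r 1 x ∧
          (∀ h, ∀ F ∈ FF, aeval (x h) F = 0) ∧ (ptsOff G x).Infinite) := by
  refine ⟨fun hnu s r e => ?_, (strong_iff FF hhom hprime).2⟩
  have : Countable k := (Module.finBasis ℚ k).equivFun.injective.countable
  exact Pool.Agent.J6H32.SL.strongB _ hhom hprime hnu s r e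

end Pool.Agent.Results.MP_7ede32_ag.OneSetOneBound
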