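import Mathlib
import Pool.Agent.J6H55.QF.Top

/-!
# The strong Lang picture without exceptional set and uniformly in families, for quasi-finite covers of
# products of moduli spaces of maps with a marked periodic point

`V d n K` (`Pool/Agent/Q41/GT/Mod.lean`, project of helper41) is the set of the `K`-points of the moduli space of
the pairs (rational map of degree `d`, point of exact period `n`): the `x` in `K ^ (2 d - 1)` such that
`num d x` (of degree less than `d`) and `den d x` (monic of degree `d`, with the same value at `0`) are coprime and
`∞` has exact period `n` for `f = num d x / den d x`; every pair is conjugate to exactly one such pair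
`(f, ∞)`. It is an affine variety, of pure dimension `2 d - 2`, not empty for `n ≥ 3`.

`Family k σ β ι d n` (`Pool/Agent/J6H55/QF/Defs.lean`): a family `U → A ^ β` of varieties, quasi-finite over a
product of such spaces. `U` is a locally closed subset of the affine space `A ^ σ` over the number field `k`
(the equations `F = 0`, `F ∈ I`, and not all `G ∈ J` vanish), `b : U → A ^ β` and
`a j : U → V (d j) (n j)`, `j` in the finite set `ι`, are morphisms, given by polynomials, and
`(b, a) : U → A ^ β × ∏ V (d j) (n j)` has finite fibres (over the complex numbers). `Pts I J E` is the set of
the points of `U` over the field `E`. The members of the family are the fibres `U_c` of `b` over the points `c` of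
the base, over all fields; the base and the dimensions are arbitrary. For `β = ∅` there is one member: an
arbitrary quasi-projective, quasi-affine variety with a quasi-finite morphism to `∏ V (d j) (n j)`. No
single one of the morphisms `a j` need be quasi-finite on the fibres.

Theorem. There are `B₀(d)`, `B₁(d, D, ε)`, `B₂(d, D)` such that for all these families:

If `B₀ (d j) ≤ n j` for all `j` then

(1) all subvarieties `W` of positive dimension of the fibres of `b` are of general type: `W` is given by its
function field `E` over an extension `κ` of `k` (any characteristic zero field, for instance the complex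
numbers, or the function field of the base for the generic fibre) and its generic point `y`; it lies over a
point of the base which is algebraic over `κ`;

(2) the fibres are Brody hyperbolic, also with their boundary: for a holomorphic map `f` from the
complex plane to the closure of `U` (in affine space) whose image meets `U`, the moduli `a j ∘ f` are constant,
and if `b ∘ f` is constant so is `f`;

(3) the big Picard theorem: for a holomorphic map `f` from the punctured disc to the closure of
`U`, whose image meets `U`, the moduli `a j ∘ f` are meromorphic at the puncture, and if `b ∘ f` is meromorphic at
the puncture so is `f`;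

(4) the fibres are algebraically hyperbolic, uniformly: there is ONE constant `A` such that for all
algebraically closed fields `κ` and all maps `y` of curves of genus `g` over `κ` (with the function field
`L`) to `U` all coordinates `y i` have degree at most `A (max (2 g - 2) 0 + ∑ deg (b i ∘ y))`; in the fibres
the sum is zero.

(5) Points, uniformly: if `B₁ (d j) D ε ≤ n j` for all `j` there is ONE constant `C` such that for all `T ≥ 1` each
fibre `U_c` has altogether at most `C T ^ (#ι ε)` points over all number fields of degree at most `D`
(over the rational numbers), for which the maps `f_j` belonging to the points `a j (y)` have absolute height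
at most `T` (`Family.Low`, `Pool/Agent/J6H55/QF/Pt.lean`; in particular if `y` has height at most a power of `T`).

(6) Points with good reduction, uniformly: if `B₂ (d j) D ≤ n j` for all `j` there is for each `M ≠ 0` ONE constant
`C` such that each fibre `U_c` has altogether at most `C` points over all number fields of degree at most `D`
for which the maps `f_j` have potentially good reduction at all places which do not divide `M` (`Family.Good`,
`Pool/Agent/J6H55/QF/Good.lean`).

So the strong form of Lang's conjecture is confirmed for these varieties in all its geometric parts, with the empty
exceptional set and with constants independent of the member of the family; finiteness of the points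
over `K` is replaced by (5) and (6).

`hgt κ y`: the degree of the rational function `y`; `canDeg κ L = 2 g - 2`; `GeneralType κ E w`
(`Pool/Agent/W602/GT/Defs.lean`): the transcendence degree is `w` and for some `N > 0` there are `w + 1` rational
`N`-canonical forms of the function field `E`, regular at all prime divisors of all models, with `w`
algebraically independent ratios.

Known before (start): the case of one map and no base of (1) for subvarieties of `V d n` itself and quasi-finite
covers (`MP_8d6173_ag.GeneralTypeLargePeriod`), the statements modulo a proper closed subset for projective
varieties with one map and generically finite moduli map (`MP_7ede32_ag.OneSetForPointsAndCurves`), the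
number of conjugacy classes in (5) and (6) (`MP_90787a_nt.FewExceptionalClasses`,
`MP_13bc7b_nt.FinitelyManyExceptions`), and `MP_7ede32_ag.JointModuliFibration` (several maps, projective
varieties, modulo a proper closed subset which depends on the variety).

Proof. A point of `U` over any field `E` has coordinates which are algebraic over the field generated by its base
and moduli coordinates: otherwise one gets infinitely many complex points in one fibre by embedding the field of
the point in the complex numbers in infinitely many ways. By noetherian induction there is a finite set of
polynomial relations which makes this uniform. The cross ratios of the orbits of the marked points generate the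
field of the moduli, up to algebraic elements; so (1) is the general type theorem for several maps
(`Pool/Agent/J6H55/JM/GT.lean`), (2), (3) and (4) follow from the universal results for one map over the field of
the meromorphic functions on the punctured disc and over function fields of curves (projects EC, GT of
helper103, helper41), where no exceptional set is needed, and the uniform relations. For (2) compose with `exp`:
a periodic function which is meromorphic at infinity is constant. For (5) and (6) each conjugacy class contains
boundedly many points of `V d n`, and `(b, a)` has uniformly finite fibres.
-/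

set_option autoImplicit false
set_option linter.overlappingInstances false

namespace Pool.Agent.Results.MP_7ede32_ag.UniformFamilies

open FF
open Pool.Agent.W602.GT (GeneralType)
open Pool.Agent.W603.LV (hgt canDeg)
open Pool.Agent.J6H55.QF

/-- See the explanation at the beginning of the file. -/
theorem result : ∃ (B₀ : ℕ → ℕ) (B₁ : ℕ → ℕ → ℝ → ℕ) (B₂ : ℕ → ℕ → ℕ), ∀ (k : Type) [Field k]
    [NumberField k] [Algebra k ℂ] (σ β ι : Type) [Finite σ] [Fintype β] [Fintype ι] (d n : ι → ℕ)
    (X : Family k σ β ι d n), (∀ j, 2 ≤ d j) →
    ((∀ j, B₀ (d j) ≤ n j) →
      (∀ (κ E : Type) [Field κ] [Algebra k κ] [Field E] [Algebra k E] [Algebra κ E]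
        [IsScalarTower k κ E] (y : σ → E), y ∈ Pts X.I X.J E →
        (∀ i, IsAlgebraic κ (MvPolynomial.aeval y (X.b i))) →
        IntermediateField.adjoin κ (Set.range y) = ⊤ → ∀ w : ℕ, 1 ≤ w → Algebra.trdeg κ E = w →
        GeneralType κ E w) ∧
      (∀ f : σ → ℂ → ℂ, HolMap X.I X.J Set.univ f →
        (∀ j s z, X.am (fun i => f i z) j s = X.am (fun i => f i 1) j s) ∧
        ((∀ i z, MvPolynomial.aeval (fun i => f i z) (X.b i) =
          MvPolynomial.aeval (fun i => f i 1) (X.b i)) → ∀ i z, f i z = f i 1)) ∧
      (∀ f : σ → ℂ → ℂ, HolMap X.I X.J PD f →
        (∀ j s, MeromorphicAt (fun z => X.am (fun i => f i z) j s) 0) ∧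
        ((∀ i, MeromorphicAt (fun z => MvPolynomial.aeval (fun i => f i z) (X.b i)) 0) →
          ∀ i, MeromorphicAt (f i) 0)) ∧
      ∃ A : ℕ, ∀ (κ L : Type) [Field κ] [IsAlgClosed κ] [Algebra k κ] [Field L] [Algebra k L]
        [Algebra κ L] [IsScalarTower k κ L] [IsFF κ L] (y : σ → L), y ∈ Pts X.I X.J L →
        ∀ i, hgt κ (y i) ≤ A * (max (canDeg κ L) 0 + ∑ i, hgt κ (MvPolynomial.aeval y (X.b i)))) ∧
    (∀ (D : ℕ) (ε : ℝ), 0 < ε → (∀ j, B₁ (d j) D ε ≤ n j) →
      ∃ C : ℝ, ∀ T : ℝ, 1 ≤ T → ∀ (c : β → ℂ) (S : Finset (σ → ℂ)),
        (∀ y ∈ S, y ∈ Pts X.I X.J ℂ ∧ (∀ i, MvPolynomial.aeval y (X.b i) = c i) ∧ X.Low D T y) →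
        (S.card : ℝ) ≤ C * T ^ (Fintype.card ι * ε)) ∧
    ∀ D : ℕ, (∀ j, B₂ (d j) D ≤ n j) → ∀ M : ℕ, M ≠ 0 →
      ∃ C : ℕ, ∀ (c : β → ℂ) (S : Finset (σ → ℂ)),
        (∀ y ∈ S, y ∈ Pts X.I X.J ℂ ∧ (∀ i, MvPolynomial.aeval y (X.b i) = c i) ∧ X.Good D M y) →
        S.card ≤ C :=
  main

end Pool.Agent.Results.MP_7ede32_ag.UniformFamilies
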